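import Mathlib
import Pool.Agent.R332.Mixed

/-!
# The diagonal point of the mixed lonely runner parameter space for three runners

For `k = 3` the point `(1/4, 1/4, 1/4)` lies in `MLPS_3` and is a convex combination of
upper-boundary points of `MLPS_3` different from it.
-/

namespace Pool.Agent.Results.MP_b0d7fb_nt.DiagonalInHull

open Pool.Agent.R332.Mixed MeasureTheory

/-- the distance to the nearest integer -/
noncomputable def distInt (x : ℝ) : ℝ := |x - round x|

/-- the mixed lonely runner condition `MLRC(d)` -/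
def MLRC {k : ℕ} (d : Fin k → ℝ) : Prop :=
  ∀ s : Fin k → ℕ, (∀ i, 0 < s i) → Function.Injective s →
    ∃ t : ℝ, ∀ i, d i ≤ distInt (s i * t)

/-- the parameter space `MLPS_k` -/
def MLPS (k : ℕ) : Set (Fin k → ℝ) := {d | (∀ i, 0 < d i ∧ d i ≤ 1 / 2) ∧ MLRC d}

/-- the upper boundary of `MLPS_k` -/
def upperBoundary (k : ℕ) : Set (Fin k → ℝ) :=
  {d | d ∈ MLPS k ∧ ∀ e ∈ MLPS k, (∀ i, d i ≤ e i) → e = d}

/-- the diagonal point `D_k` -/
noncomputable def D (k : ℕ) : Fin k → ℝ := fun _ => 1 / ((k : ℝ) + 1)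

theorem distInt_le (x : ℝ) (m : ℤ) : distInt x ≤ |x - m| := round_le x m

theorem le_distInt {δ x : ℝ} (h : far δ x) : δ ≤ distInt x := h _

theorem exists_real_iff {k : ℕ} (d : Fin k → ℝ) (s : Fin k → ℕ) :
    (∃ t : ℝ, ∀ i, d i ≤ distInt (s i * t)) ↔
      ∃ x : UnitAddCircle, ∀ i, d i ≤ ‖s i • x‖ := by
  have key : ∀ (t : ℝ) (n : ℕ), ‖n • (t : UnitAddCircle)‖ = distInt (n * t) := by
    intro t n
    rw [← AddCircle.coe_nsmul, UnitAddCircle.norm_eq, nsmul_eq_mul, distInt]
  constructor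
  · rintro ⟨t, ht⟩
    exact ⟨t, fun i => by rw [key]; exact ht i⟩
  · rintro ⟨x, hx⟩
    induction x using QuotientAddGroup.induction_on with
    | H t =>
      refine ⟨t, fun i => ?_⟩
      rw [← key]
      exact hx i

theorem isClosed_MLRC (k : ℕ) : IsClosed {d : Fin k → ℝ | MLRC d} := by
  have e : {d : Fin k → ℝ | MLRC d} = ⋂ (s : Fin k → ℕ), ⋂ (_ : ∀ i, 0 < s i),
      ⋂ (_ : Function.Injective s),
        Prod.fst '' {p : (Fin k → ℝ) × UnitAddCircle | ∀ i, p.1 i ≤ ‖s i • p.2‖} := by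
    ext d
    simp only [Set.mem_ofPred_eq, Set.mem_iInter, MLRC]
    refine forall_congr' fun s => forall_congr' fun _ => forall_congr' fun _ => ?_
    rw [exists_real_iff]
    constructor
    · rintro ⟨x, hx⟩
      exact ⟨(d, x), hx, rfl⟩
    · rintro ⟨⟨d', x⟩, hx, rfl⟩
      exact ⟨x, hx⟩
  rw [e]
  refine isClosed_iInter fun s => isClosed_iInter fun _ => isClosed_iInter fun _ => ?_
  apply isClosedMap_fst_of_compactSpace
  rw [Set.ofPred_forall]
  refine isClosed_iInter fun i => isClosed_le ?_ ?_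
  · exact (continuous_apply i).comp continuous_fst
  · exact ((continuous_nsmul (s i)).comp continuous_snd).norm

/-- every point of `MLPS_k` lies below a point of the upper boundary -/
theorem exists_above {k : ℕ} {d0 : Fin k → ℝ} (h0 : d0 ∈ MLPS k) :
    ∃ d ∈ upperBoundary k, ∀ i, d0 i ≤ d i := by
  set S : Set (Fin k → ℝ) := Set.Icc d0 (fun _ => 1 / 2) ∩ {d | MLRC d} with hS
  have hc : IsCompact S := isCompact_Icc.inter_right (isClosed_MLRC k)
  have hne : S.Nonempty := ⟨d0, ⟨le_rfl, fun i => (h0.1 i).2⟩, h0.2⟩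
  obtain ⟨d, hd, hmax⟩ := hc.exists_isMaxOn hne
    (f := fun d : Fin k → ℝ => ∑ i, d i) (by fun_prop)
  have hdM : d ∈ MLPS k :=
    ⟨fun i => ⟨(h0.1 i).1.trans_le (hd.1.1 i), hd.1.2 i⟩, hd.2⟩
  refine ⟨d, ⟨hdM, ?_⟩, fun i => hd.1.1 i⟩
  intro e he hde
  have heS : e ∈ S := ⟨⟨fun i => (hd.1.1 i).trans (hde i), fun i => (he.1 i).2⟩, he.2⟩
  have hle : ∑ i, e i ≤ ∑ i, d i := hmax heS
  have heq : ∑ i, e i = ∑ i, d i := le_antisymm hle (Finset.sum_le_sum fun i _ => hde i)
  have := (Finset.sum_eq_sum_iff_of_le (fun i _ => hde i)).1 heq.symm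
  funext i
  exact (this i (Finset.mem_univ _)).symm

theorem MLPS_perm {k : ℕ} {d : Fin k → ℝ} (σ : Equiv.Perm (Fin k)) (h : d ∈ MLPS k) :
    d ∘ σ ∈ MLPS k := by
  refine ⟨fun i => h.1 _, ?_⟩
  intro s hs hinj
  obtain ⟨t, ht⟩ := h.2 (s ∘ σ.symm) (fun i => hs _) (hinj.comp σ.symm.injective)
  refine ⟨t, fun i => ?_⟩
  have := ht (σ i)
  simpa using this

theorem ub_perm {k : ℕ} {d : Fin k → ℝ} (σ : Equiv.Perm (Fin k)) (h : d ∈ upperBoundary k) :
    d ∘ σ ∈ upperBoundary k := by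
  refine ⟨MLPS_perm σ h.1, ?_⟩
  intro e he hle
  have h1 := h.2 (e ∘ σ.symm) (MLPS_perm σ.symm he) (fun i => by
    have := hle (σ.symm i)
    simpa using this)
  rw [← h1]
  funext i
  simp

theorem const_mem {d : Fin 3 → ℝ} (h : d ∈ upperBoundary 3) (hD : d ≠ D 3) :
    (fun _ => (d 0 + d 1 + d 2) / 3 : Fin 3 → ℝ) ∈
      convexHull ℝ (upperBoundary 3 \ {D 3}) := by
  have hz : ∀ j : Fin 3, (d ∘ (Equiv.addRight j : Equiv.Perm (Fin 3))) ∈
      convexHull ℝ (upperBoundary 3 \ {D 3}) := by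
    intro j
    apply subset_convexHull
    refine ⟨ub_perm _ h, ?_⟩
    intro h'
    apply hD
    have h'' : d ∘ (Equiv.addRight j : Equiv.Perm (Fin 3)) = D 3 := h'
    funext i
    have := congrFun h'' (i - j)
    simp only [Function.comp_apply, Equiv.coe_addRight, sub_add_cancel] at this
    rw [this]
    rfl
  have := (convex_convexHull ℝ (upperBoundary 3 \ {D 3})).sum_mem (t := Finset.univ)
    (w := fun _ : Fin 3 => (1 / 3 : ℝ)) (z := fun j => d ∘ (Equiv.addRight j : Equiv.Perm (Fin 3)))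
    (fun _ _ => by norm_num) (by simp) (fun j _ => hz j)
  convert this using 1
  funext i
  simp only [Finset.sum_apply, Pi.smul_apply, Function.comp_apply, Equiv.coe_addRight,
    smul_eq_mul, Fin.sum_univ_three]
  fin_cases i
  · show (d 0 + d 1 + d 2) / 3 = 1 / 3 * d 0 + 1 / 3 * d 1 + 1 / 3 * d 2
    ring
  · show (d 0 + d 1 + d 2) / 3 = 1 / 3 * d 1 + 1 / 3 * d 2 + 1 / 3 * d 0
    ring
  · show (d 0 + d 1 + d 2) / 3 = 1 / 3 * d 2 + 1 / 3 * d 0 + 1 / 3 * d 1
    ring

theorem p_mem : (![7 / 20, 1 / 5, 1 / 5] : Fin 3 → ℝ) ∈ MLPS 3 := by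
  refine ⟨fun i => by fin_cases i <;> norm_num, ?_⟩
  intro s hs hinj
  have h0 := hs 0
  have h1 := hs 1
  have h2 := hs 2
  have h01 : s 0 ≠ s 1 := fun h => absurd (hinj h) (by decide)
  have h02 : s 0 ≠ s 2 := fun h => absurd (hinj h) (by decide)
  obtain ⟨t, t0, t1, t2⟩ := m1 _ (s 0) (s 1) (s 2) le_rfl (by omega) (by omega) (by omega)
    (by omega) (by omega) (by omega) (by omega)
  push_cast at t0 t1 t2
  refine ⟨t, fun i => ?_⟩
  fin_cases i
  · exact le_distInt t0
  · exact le_distInt t1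
  · exact le_distInt t2

theorem D_mem : D 3 ∈ MLPS 3 := by
  refine ⟨fun i => by unfold D; norm_num, ?_⟩
  intro s hs hinj
  have h0 := hs 0
  have h1 := hs 1
  have h2 := hs 2
  have h01 : s 0 ≠ s 1 := fun h => absurd (hinj h) (by decide)
  have h02 : s 0 ≠ s 2 := fun h => absurd (hinj h) (by decide)
  have h12 : s 1 ≠ s 2 := fun h => absurd (hinj h) (by decide)
  obtain ⟨t, t0, t1, t2⟩ := lr3 _ (s 0) (s 1) (s 2) le_rfl (by omega) (by omega) (by omega)
    (by omega) (by omega) (by omega) (by omega) (by omega) (by omega)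
  push_cast at t0 t1 t2
  refine ⟨t, fun i => ?_⟩
  have e : D 3 i = 1 / 4 := by unfold D; norm_num
  rw [e]
  fin_cases i
  · exact le_distInt t0
  · exact le_distInt t1
  · exact le_distInt t2

/-- the measure of the times where a runner is close to the start -/
theorem vol_close {n : ℕ} (hn : 0 < n) (ε : ℝ) (hε : 2 * ε ≤ 1) :
    volume {x : UnitAddCircle | ‖n • x‖ ≤ ε} = ENNReal.ofReal (2 * ε) := by
  have hp : MeasurePreserving (fun x : UnitAddCircle => (n : ℤ) • x) volume volume :=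
    MeasureTheory.Measure.measurePreserving_zsmul volume (by exact_mod_cast hn.ne')
  have e : {x : UnitAddCircle | ‖n • x‖ ≤ ε} =
      (fun x : UnitAddCircle => (n : ℤ) • x) ⁻¹' Metric.closedBall 0 ε := by
    ext x
    simp
  rw [e, hp.measure_preimage measurableSet_closedBall.nullMeasurableSet,
    AddCircle.volume_closedBall, min_eq_right hε]

theorem q_mem : (![21 / 50, 1 / 50, 1 / 50] : Fin 3 → ℝ) ∈ MLPS 3 := by
  refine ⟨fun i => by fin_cases i <;> norm_num, ?_⟩
  intro s hs hinj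
  rw [exists_real_iff]
  by_contra hcon
  push Not at hcon
  have hcov : (Set.univ : Set UnitAddCircle) ⊆ {x | ‖s 0 • x‖ ≤ 21 / 50} ∪
      ({x | ‖s 1 • x‖ ≤ 1 / 50} ∪ {x | ‖s 2 • x‖ ≤ 1 / 50}) := by
    intro x _
    obtain ⟨i, hi⟩ := hcon x
    fin_cases i
    · left; exact hi.le
    · right; left; exact hi.le
    · right; right; exact hi.le
  have h1 := measure_mono (μ := (volume : Measure UnitAddCircle)) hcov
  have h2 : volume ({x : UnitAddCircle | ‖s 0 • x‖ ≤ 21 / 50} ∪
      ({x | ‖s 1 • x‖ ≤ 1 / 50} ∪ {x | ‖s 2 • x‖ ≤ 1 / 50})) ≤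
      ENNReal.ofReal (2 * (21 / 50)) + (ENNReal.ofReal (2 * (1 / 50)) +
        ENNReal.ofReal (2 * (1 / 50))) := by
    refine (measure_union_le _ _).trans ?_
    rw [vol_close (hs 0) _ (by norm_num)]
    gcongr
    refine (measure_union_le _ _).trans ?_
    rw [vol_close (hs 1) _ (by norm_num), vol_close (hs 2) _ (by norm_num)]
  have h3 := h1.trans h2
  rw [AddCircle.measure_univ, ← ENNReal.ofReal_add (by norm_num) (by norm_num),
    ← ENNReal.ofReal_add (by norm_num) (by norm_num),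
    ENNReal.ofReal_le_ofReal_iff (by norm_num)] at h3
  norm_num at h3

/-- near `1/2` the double is close to an integer -/
theorem double_close {δ δ' t : ℝ} (h1 : δ ≤ distInt t) (h2 : δ' ≤ distInt (2 * t)) :
    δ' ≤ 1 - 2 * δ := by
  have h3 : |t - round t| ≤ 1 / 2 := abs_sub_round t
  unfold distInt at h1
  rcases abs_cases (t - round t) with ⟨h, h'⟩ | ⟨h, h'⟩
  · have := distInt_le (2 * t) (2 * round t + 1)
    push_cast at this
    have e : 2 * t - (2 * (round t : ℝ) + 1) = -(1 - 2 * (t - round t)) := by ring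
    rw [e, abs_neg, abs_of_nonneg (by linarith)] at this
    linarith
  · have := distInt_le (2 * t) (2 * round t - 1)
    push_cast at this
    have e : 2 * t - (2 * (round t : ℝ) - 1) = 1 + 2 * (t - round t) := by ring
    rw [e, abs_of_nonneg (by linarith)] at this
    linarith

theorem q_bound {q : Fin 3 → ℝ} (hq : q ∈ MLPS 3) : q 1 ≤ 1 - 2 * q 0 ∧ q 2 ≤ 1 - 2 * q 0 := by
  constructor
  · obtain ⟨t, ht⟩ := hq.2 ![1, 2, 3] (by intro i; fin_cases i <;> simp)
      (by decide)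
    have h0 := ht 0
    have h1 := ht 1
    simp only [Matrix.cons_val_zero, Matrix.cons_val_one, Nat.cast_one, one_mul,
      Nat.cast_ofNat] at h0 h1
    exact double_close h0 h1
  · obtain ⟨t, ht⟩ := hq.2 ![1, 3, 2] (by intro i; fin_cases i <;> simp)
      (by decide)
    have h0 := ht 0
    have h1 := ht 2
    simp only [Matrix.cons_val_zero, Matrix.cons_val, Nat.cast_one, one_mul,
      Nat.cast_ofNat] at h0 h1
    exact double_close h0 h1

/-- For `k = 3` the diagonal point `D_3 = (1/4, 1/4, 1/4)` lies in `MLPS_3` and in the convex hull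
of the points of the upper boundary of `MLPS_3` different from `D_3`. -/
theorem result : D 3 ∈ MLPS 3 ∧ D 3 ∈ convexHull ℝ (upperBoundary 3 \ {D 3}) := by
  refine ⟨D_mem, ?_⟩
  have hD : ∀ i, D 3 i = 1 / 4 := by intro i; unfold D; norm_num
  obtain ⟨p, hp, hpl⟩ := exists_above p_mem
  obtain ⟨q, hq, hql⟩ := exists_above q_mem
  have p0 : 7 / 20 ≤ p 0 := by have := hpl 0; simpa using this
  have p1 : 1 / 5 ≤ p 1 := by have := hpl 1; simpa using this
  have p2 : 1 / 5 ≤ p 2 := by have := hpl 2; simpa using this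
  have q0 : 21 / 50 ≤ q 0 := by have := hql 0; simpa using this
  obtain ⟨q1, q2⟩ := q_bound hq.1
  have hpD : p ≠ D 3 := by
    rintro rfl
    rw [hD] at p0
    norm_num at p0
  have hqD : q ≠ D 3 := by
    rintro rfl
    rw [hD] at q0
    norm_num at q0
  have hp' := const_mem hp hpD
  have hq' := const_mem hq hqD
  set x : ℝ := (p 0 + p 1 + p 2) / 3 with hx
  set y : ℝ := (q 0 + q 1 + q 2) / 3 with hy
  have hx1 : 1 / 4 ≤ x := by rw [hx]; linarith
  have hy1 : y < 1 / 4 := by rw [hy]; linarith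
  have hxy : 0 < x - y := by linarith
  have key := (convex_convexHull ℝ (upperBoundary 3 \ {D 3})) hp' hq'
    (a := (1 / 4 - y) / (x - y)) (b := (x - 1 / 4) / (x - y))
    (div_nonneg (by linarith) hxy.le) (div_nonneg (by linarith) hxy.le)
    (by field_simp; ring)
  convert key using 1
  funext i
  rw [hD]
  simp only [Pi.add_apply, Pi.smul_apply, smul_eq_mul]
  field_simp
  ring

end Pool.Agent.Results.MP_b0d7fb_nt.DiagonalInHull
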